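import Pool.Agent.Helper35_XQ.StmtAH

/-! helper17, squad XQ (MP_5b0138_an), part A5: module AH_LOC. -/

set_option autoImplicit false

namespace Pool.Agent.XQ.AH.H17

open MeasureTheory Complex Filter Topology Pool.Agent.H62T Pool.Agent.H60K Pool.Agent.H38KL
  Pool.Agent.H60K.H69

theorem loc : Pool.Agent.XQ.AH.LocStatement := by
  intro α d hα1 hα2 hd
  have hpi := Real.pi_pos
  have s1 : 0 < Real.sin α := Real.sin_pos_of_pos_of_lt_pi (by linarith) hα2
  have hS1 : Real.sin α ≤ 1 := Real.sin_le_one _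
  have c1 : Real.cos α < 0 := Real.cos_neg_of_pi_div_two_lt_of_lt hα1 (by linarith)
  have hc1' : -1 ≤ Real.cos α := Real.neg_one_le_cos _
  set m : ℝ := -Real.cos α with hmdef
  have hm : 0 < m := by rw [hmdef]; linarith
  have hm1 : m ≤ 1 := by rw [hmdef]; linarith
  refine ⟨4 / Real.sin α + (2 + 4 / Real.sin α) / m + 6 / (Real.sin α * d), by positivity, ?_⟩
  intro n _ x A hV hC
  set b : Fin n → ℝ := fun j => bl (us α 0) (hh d) (A j) (x j) (x (j + 1)) with hbdef
  have hnb : ∀ j, ‖x j - x (j + 1)‖ ≤ b j := fun j => norm_le_bl _ _ (H69.norm_us α 0) _ _ _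
  have hb0 : ∀ j, 0 ≤ b j := fun j => le_trans (norm_nonneg _) (hnb j)
  have hbL : ∀ j, b j ≤ ∑ i, b i := fun j =>
    Finset.single_le_sum (fun i _ => hb0 i) (Finset.mem_univ j)
  have hLn : Ln (us α 0) (hh d) x A = ∑ i, b i := rfl
  rw [hLn]
  set L := ∑ i, b i with hLdef
  have hL0 : 0 ≤ L := Finset.sum_nonneg (fun i _ => hb0 i)
  have hvis : ∀ s j, s ∈ A j → hh d s - ip (us α 0 s) (x 0) ≤ 2 * L := by
    intro s j hj
    have h1 := (vis_le (us α 0) (hh d) (H69.norm_us α 0) (A j) s hj (x j) (x (j + 1))).1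
    have h2 := cyc2 x b hnb j 0
    have h3 := ip_diff_le (H69.norm_us α 0 s) (x j) (x 0)
    have h4 := hbL j
    simp only [hbdef] at h4
    linarith
  obtain ⟨k0, hk0⟩ := hV.1 0 (by simp)
  obtain ⟨k1, hk1⟩ := hV.1 1 (by simp)
  have v0 := hvis 0 k0 hk0
  have v1 := hvis 1 k1 hk1
  have h2 : 2 ∉ A 0 := fun hj => by
    have := hV.2 0
    rw [Finset.disjoint_singleton_right] at this
    exact this hj
  have v2 := (hC 0 2 h2).1
  have e1 := ip_us1 α 0 (x 0)
  have e2 := ip_us2 α 0 (x 0)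
  rw [Real.sin_zero, Real.cos_zero] at e2
  rw [hh0, ip_us0] at v0
  rw [hh1, e1] at v1
  rw [hh2, e2] at v2
  have hs1re : |Real.sin α * (x 0).re| ≤ |(x 0).re| := by
    rw [abs_mul, abs_of_pos s1]
    exact mul_le_of_le_one_left (abs_nonneg _) hS1
  rw [abs_le] at hs1re
  have him : 0 < (x 0).im := by linarith
  have hcim : Real.cos α * (x 0).im < 0 := mul_neg_of_neg_of_pos c1 him
  refine loc_core s1 hS1 hm hd hL0 rfl (x 0) (by linarith) (by linarith) ?_
  rw [abs_of_pos him, hmdef]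
  linarith

end Pool.Agent.XQ.AH.H17
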