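import Pool.Agent.Helper35_XQ.StmtAH

/-! helper17, squad XQ (MP_5b0138_an), part A5: module AH_PRN. -/

set_option autoImplicit false

namespace Pool.Agent.XQ.AH.H17

open MeasureTheory Complex Filter Topology Pool.Agent.H62T Pool.Agent.H60K Pool.Agent.H38KL

theorem arg_lower {β : ℝ} (h1 : 0 < β) (h2 : β < Real.pi / 2) {z : ℂ} (hz : 0 < z.re)
    (hz' : 0 < z.re * Real.sin β + z.im * Real.cos β) : -β < Complex.arg z := by
  have ha : |Complex.arg z| < Real.pi / 2 := Complex.abs_arg_lt_pi_div_two_iff.2 (Or.inl hz)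
  rw [abs_lt] at ha
  by_contra hcon
  have hcon : β + Complex.arg z ≤ 0 := by linarith [not_lt.1 hcon]
  have h3 : Real.sin (β + Complex.arg z) ≤ 0 :=
    Real.sin_nonpos_of_nonpos_of_neg_pi_le hcon (by linarith [Real.pi_pos])
  have h4 : z.re * Real.sin β + z.im * Real.cos β = ‖z‖ * Real.sin (β + Complex.arg z) := by
    rw [Real.sin_add]
    have e1 : z.re = ‖z‖ * Real.cos (Complex.arg z) := (Complex.norm_mul_cos_arg z).symm
    have e2 : z.im = ‖z‖ * Real.sin (Complex.arg z) := (Complex.norm_mul_sin_arg z).symm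
    nth_rewrite 1 [e1]
    nth_rewrite 1 [e2]
    ring
  rw [h4] at hz'
  nlinarith only [hz', h3, norm_nonneg z]

theorem arg_upper {β : ℝ} (h1 : 0 < β) (h2 : β < Real.pi / 2) {z : ℂ} (hz : 0 < z.re)
    (hz' : z.im * Real.cos β < z.re * Real.sin β) : Complex.arg z < β := by
  have ha : |Complex.arg z| < Real.pi / 2 := Complex.abs_arg_lt_pi_div_two_iff.2 (Or.inl hz)
  rw [abs_lt] at ha
  by_contra hcon
  have hcon : 0 ≤ Complex.arg z - β := by linarith [not_lt.1 hcon]
  have h3 : 0 ≤ Real.sin (Complex.arg z - β) :=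
    Real.sin_nonneg_of_nonneg_of_le_pi hcon (by linarith [Real.pi_pos])
  have h4 : z.im * Real.cos β - z.re * Real.sin β = ‖z‖ * Real.sin (Complex.arg z - β) := by
    rw [Real.sin_sub]
    have e1 : z.re = ‖z‖ * Real.cos (Complex.arg z) := (Complex.norm_mul_cos_arg z).symm
    have e2 : z.im = ‖z‖ * Real.sin (Complex.arg z) := (Complex.norm_mul_sin_arg z).symm
    nth_rewrite 1 [e1]
    nth_rewrite 1 [e2]
    ring
  have h5 : z.im * Real.cos β - z.re * Real.sin β < 0 := by linarith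
  rw [h4] at h5
  linarith only [hz', h4, norm_nonneg z, mul_nonneg (norm_nonneg z) h3]

theorem prn : Pool.Agent.XQ.AH.PrnStatement := by
  intro α d h1 h2 hd
  have hpi := Real.pi_pos
  set β : ℝ := (2 * α - Real.pi) / 4 with hβ
  have hβ0 : 0 < β := by rw [hβ]; linarith
  have hβ1 : β < Real.pi / 2 := by rw [hβ]; linarith
  have hs : 0 < Real.sin β := Real.sin_pos_of_pos_of_lt_pi hβ0 (by linarith)
  have hc : 0 < Real.cos β := Real.cos_pos_of_mem_Ioo ⟨by linarith, hβ1⟩
  refine ⟨d / 2 * Real.sin β, by positivity, fun ρ hρ hρ0 => ?_⟩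
  set θ : ℝ := min β (ρ / d) with hθ
  have hθ0 : 0 < θ := lt_min hβ0 (by positivity)
  have hθ1 : θ ≤ β := min_le_left _ _
  have hθ2 : θ * d ≤ ρ := by
    have : θ ≤ ρ / d := min_le_right _ _
    rwa [le_div_iff₀ hd] at this
  have hθ3 : θ < Real.pi / 2 := by linarith
  refine ⟨θ, hθ0, hθ3, by rw [hβ] at hθ1; linarith, ?_⟩
  set g : ℝ := 2 * d * Real.cos θ + 2 * ρ * Real.sin θ - 2 * d with hg
  have hg0 : 0 < g := by
    have e1 : 1 - θ ^ 2 / 2 ≤ Real.cos θ := Real.one_sub_sq_div_two_le_cos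
    have e2 : 2 / Real.pi * θ ≤ Real.sin θ := Real.mul_le_sin hθ0.le hθ3.le
    have e3 : 1 / 2 < 2 / Real.pi := by
      rw [div_lt_div_iff₀ (by norm_num) hpi]
      linarith [Real.pi_lt_four]
    have e4 : θ / 2 < Real.sin θ := by nlinarith only [e2, hθ0, e3]
    have e5 : d * θ ^ 2 ≤ ρ * θ := by nlinarith only [hθ0, hθ2]
    have e6 : ρ * (θ / 2) < ρ * Real.sin θ := mul_lt_mul_of_pos_left e4 hρ
    have e7 : d * (1 - θ ^ 2 / 2) ≤ d * Real.cos θ := mul_le_mul_of_nonneg_left e1 hd.le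
    linarith only [e5, e6, e7]
  refine ⟨g / 2, min (min (d / 6) ρ) (g / 8), by positivity, by positivity, fun δ hδ hδ0 => ?_⟩
  have hδ1 : δ < d / 6 := hδ0.trans_le ((min_le_left _ _).trans (min_le_left _ _))
  have hδ2 : δ < ρ := hδ0.trans_le ((min_le_left _ _).trans (min_le_right _ _))
  have hδ3 : δ < g / 8 := hδ0.trans_le (min_le_right _ _)
  refine ⟨by linarith, hδ2, ?_, ?_⟩
  · intro x hx
    obtain ⟨hx1, hx2, hx3⟩ := hx
    rw [abs_lt] at hx1
    have hxr : d / 2 < x.re := by linarith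
    have hxr' : x.re < d := by linarith
    have hc1 : Real.cos β ≤ 1 := Real.cos_le_one _
    have hxi : -(d / 2 * Real.sin β) < x.im * Real.cos β := by nlinarith only [hρ0, hc, hx2, hρ, hc1]
    have hxi' : x.im * Real.cos β < d / 2 * Real.sin β := by nlinarith only [hρ0, hc, hx3, hρ, hc1]
    have hre : (2 * (d : ℂ) - (starRingEnd ℂ) x).re = 2 * d - x.re := by
      simp
    have him : (2 * (d : ℂ) - (starRingEnd ℂ) x).im = x.im := by
      simp
    have m1 : d / 2 * Real.sin β < x.re * Real.sin β := mul_lt_mul_of_pos_right hxr hs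
    have m2 : d / 2 * Real.sin β < (2 * d - x.re) * Real.sin β :=
      mul_lt_mul_of_pos_right (by linarith only [hδ1, hx1]) hs
    have e3 : 0 < (2 * (d : ℂ) - (starRingEnd ℂ) x).re := by rw [hre]; linarith only [hδ1, hx1]
    refine ⟨hxr.le, ?_, ?_, ?_⟩
    · rw [abs_le]
      exact ⟨(arg_lower hβ0 hβ1 (by linarith only [hδ1, hx1]) (by linarith)).le,
        (arg_upper hβ0 hβ1 (by linarith) (by linarith only [hxi', m1])).le⟩
    · rw [hre]; linarith only [hδ1, hx1]
    · rw [abs_le]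
      exact ⟨(arg_lower hβ0 hβ1 e3 (by rw [hre, him]; linarith only [hxi, m2])).le,
        (arg_upper hβ0 hβ1 e3 (by rw [hre, him]; linarith)).le⟩
  · unfold AEU.H12F.Ex
    have e1 : Real.cos θ ≤ 1 := Real.cos_le_one _
    have e2 : Real.sin θ ≤ 1 := Real.sin_le_one _
    nlinarith only [hδ3, hδ, e1, e2]

end Pool.Agent.XQ.AH.H17
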