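import Pool.Agent.Helper36_XQ.Stmt4

/-!
Squad XQ (MP_5b0138_an), part A, module A4_REV: reversal of time in the mass of three arcs.
-/

set_option autoImplicit false

namespace Pool.Agent.XQ.K4.H17

open MeasureTheory Complex Filter Topology ProbabilityTheory Pool.Agent.H16Iso Pool.Agent.H62T
  Pool.Agent.H16F Pool.Agent.H38KL Pool.Agent.AEU
open scoped ENNReal NNReal

theorem kME_comm (u : Fin 4 → ℂ) (h : Fin 4 → ℝ) (M E : Finset (Fin 4)) {t : ℝ} (ht : 0 < t)
    (x y : ℂ) : kME u h M E t x y = kME u h M E t y x := by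
  unfold kME pB
  refine Finset.sum_congr rfl fun B _ => ?_
  rw [((H8.pdk _ (dm_open u h (E ∪ B))).2 t ht).2.2.1 x y]

theorem kME_meas (u : Fin 4 → ℂ) (h : Fin 4 → ℝ) (M E : Finset (Fin 4)) :
    Measurable (fun p : ℝ × ℂ × ℂ => kME u h M E p.1 p.2.1 p.2.2) := by
  simp only [kME_eq]
  refine Finset.measurable_fun_sum _ fun A _ => ?_
  exact kA_meas u h A

theorem kME_meas2 (u : Fin 4 → ℂ) (h : Fin 4 → ℝ) (M E : Finset (Fin 4)) (t : ℝ)
    {α : Type} [MeasurableSpace α] (f g : α → ℂ) (hf : Measurable f) (hg : Measurable g) :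
    Measurable (fun p : α => ENNReal.ofReal (kME u h M E t (f p) (g p))) := by
  have h1 : Measurable (fun p : α => ((t, f p, g p) : ℝ × ℂ × ℂ)) :=
    measurable_const.prodMk (hf.prodMk hg)
  have h2 := (kME_meas u h M E).comp h1
  have h3 : Measurable (fun p : α => kME u h M E t (f p) (g p)) := h2
  exact h3.ennreal_ofReal

/-- module A4_REV -/
theorem rev : RevStatement := by
  intro u h M E S s1 s2 s3 hu h1 h2 h3 hS
  unfold W3
  simp only [rv, rvw, Matrix.cons_val_zero, Matrix.cons_val_one, Matrix.cons_val]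
  refine lintegral_congr fun x => ?_
  have hm : Measurable (fun p : ℂ × ℂ =>
      ENNReal.ofReal (kME u h (M 2) (E 2) s1 x p.1) * ENNReal.ofReal (kME u h (M 1) (E 1) s2 p.1 p.2)
        * ENNReal.ofReal (kME u h (M 0) (E 0) s3 p.2 x)) := by
    refine ((kME_meas2 u h _ _ _ _ _ measurable_const measurable_fst).mul
      (kME_meas2 u h _ _ _ _ _ measurable_fst measurable_snd)).mul
      (kME_meas2 u h _ _ _ _ _ measurable_snd measurable_const)
  rw [lintegral_lintegral_swap hm.aemeasurable]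
  refine lintegral_congr fun z => ?_
  refine lintegral_congr fun y => ?_
  rw [kME_comm u h (M 2) (E 2) h1 x y, kME_comm u h (M 1) (E 1) h2 y z,
    kME_comm u h (M 0) (E 0) h3 z x]
  ring

end Pool.Agent.XQ.K4.H17
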