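import Pool.Agent.Helper36_XQ.Stmt4

/-!
Squad XQ (MP_5b0138_an), part A, module A4_ROT: rotation of the indices.
-/

set_option autoImplicit false

namespace Pool.Agent.XQ.K4.H17

open MeasureTheory Complex Filter Topology ProbabilityTheory Pool.Agent.H16Iso Pool.Agent.H62T
  Pool.Agent.H16F Pool.Agent.H38KL Pool.Agent.AEU
open scoped ENNReal NNReal

theorem wt_rot {n : ℕ} [NeZero n] (u : Fin 4 → ℂ) (h : Fin 4 → ℝ) (τ : Fin n → ℝ) (j : Fin n)
    (x : Fin n → ℂ) (A : Fin n → Finset (Fin 4)) :
    wt u h (rot j τ) (rot j x) (rot j A) = wt u h τ x A := by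
  unfold wt rot
  refine Fintype.prod_equiv (Equiv.addRight j) _ _ fun i => ?_
  simp only [Equiv.coe_addRight]
  rw [add_right_comm i 1 j]

/-- module A4_ROT -/
theorem rot_ms : RotStatement := by
  intro u h n _ τ j P
  classical
  unfold Ms
  have e1 : ∀ A : Fin n → Finset (Fin 4),
      (∫⁻ x : Fin n → ℂ, if P (rot j x) (rot j A) then ENNReal.ofReal (wt u h τ x A) else 0)
        = ∫⁻ x : Fin n → ℂ, if P x (rot j A) then ENNReal.ofReal (wt u h (rot j τ) x (rot j A))
          else 0 := by
    intro A
    have hmp := volume_measurePreserving_piCongrLeft (fun _ : Fin n => ℂ) (Equiv.addRight (-j))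
    have hr : ∀ x : Fin n → ℂ,
        (MeasurableEquiv.piCongrLeft (fun _ : Fin n => ℂ) (Equiv.addRight (-j))) x = rot j x := by
      intro x
      ext i
      have := Equiv.piCongrLeft_apply_apply (P := fun _ : Fin n => ℂ) (Equiv.addRight (-j)) x (i + j)
      simp only [Equiv.coe_addRight, add_neg_cancel_right] at this
      exact this
    refine Eq.trans ?_ (hmp.lintegral_comp_emb (MeasurableEquiv.measurableEmbedding _) _)
    refine lintegral_congr fun x => ?_
    rw [hr x, wt_rot]
  let e : (Fin n → Finset (Fin 4)) ≃ (Fin n → Finset (Fin 4)) :=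
    { toFun := rot j
      invFun := rot (-j)
      left_inv := by
        intro A
        funext i
        simp [rot]
      right_inv := by
        intro A
        funext i
        simp [rot] }
  refine Fintype.sum_equiv e _ _ fun A => ?_
  exact e1 A

end Pool.Agent.XQ.K4.H17
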